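import Pool.Agent.Helper68.VN.GoalsN
import Pool.Agent.Helper89.SGT.NQE

/-!
# Packet PG-NEB: evenness of the norm polynomial
-/

set_option autoImplicit false

open MvPolynomial

namespace Pool.Agent.Helper47.VN.NEB

open WeierstrassCurve Height
open Pool.Agent.Helper29.BL Pool.Agent.Helper92.Ru Pool.Agent.Helper42.SG
open Pool.Agent.Helper68.VN
open Pool.Agent.Helper89.SGT.NQEaux (coeff_diag)

noncomputable section

lemma P0B_congr {K : Type} [Field K] {A : Type} [CommRing A] [Algebra K A] {σ : Type} [Fintype σ]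
    [DecidableEq σ] (W : σ → Affine K) (n M δ : ℕ) (e : Fin n → ℕ) (c : Ix σ n M δ e → K)
    (X Ψ Ψ' : Fin n → σ → A) (X0 Ψ0 Ψ0' : σ → A)
    (h : ∀ j i, Ψ j i * Ψ0 i = Ψ' j i * Ψ0' i) :
    P0B W n M δ e c X Ψ X0 Ψ0 = P0B W n M δ e c X Ψ' X0 Ψ0' := by
  unfold P0B PB blkB
  simp only [h]

variable {K : Type} [Field K] {σ : Type} [Fintype σ] [DecidableEq σ] {n : ℕ}

/-- the sign at the variable `h`. -/
def sg (h v : VV σ n) : ℤˣ := if v = h then -1 else 1

/-- the substitution `Ψ_h ↦ -Ψ_h`. -/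
def ph (K : Type) [Field K] (h : VV σ n) : GRB K σ n →ₐ[K] GRB K σ n :=
  aeval (fun i => C (if i = Sum.inr h then (-1 : K) else 1) * X i)

lemma ph_inl (h v : VV σ n) :
    ph K h (X (Sum.inl v)) = X (Sum.inl v) := by
  unfold ph
  rw [aeval_X, if_neg (by simp)]
  simp

lemma ph_inr (h v : VV σ n) :
    ph K h (X (Sum.inr v)) = (((sg h v : ℤˣ) : ℤ) : GRB K σ n) * X (Sum.inr v) := by
  unfold ph sg
  rw [aeval_X]
  by_cases hv : v = h
  · rw [if_pos (by rw [hv]), if_pos hv]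
    simp
  · rw [if_neg (by simpa using hv), if_neg hv]
    simp

lemma ph_PeB (hN : NNB) (W : σ → Affine K) (n M δ : ℕ) (e : Fin n → ℕ) (c : Ix σ n M δ e → K)
    (h : VV σ n) (ε : Fin n × σ → ℤˣ) :
    ph K h (PeB W n M δ e c ε) =
      PeB W n M δ e c (ε * fun p => sg h (Sum.inl p) * sg h (Sum.inr p.2)) := by
  unfold PeB
  rw [hN K σ W n M δ e c (GRB K σ n) (GRB K σ n) (ph K h)]
  simp only [map_mul, map_intCast, ph_inl, ph_inr]
  refine P0B_congr W n M δ e c _ _ _ _ _ _ fun j i => ?_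
  rw [Pi.mul_apply]
  push_cast
  ring

lemma ph_QhB (hN : NNB) (W : σ → Affine K) (n M δ : ℕ) (e : Fin n → ℕ) (c : Ix σ n M δ e → K)
    (h : VV σ n) : ph K h (QhB W n M δ e c) = QhB W n M δ e c := by
  unfold QhB
  rw [map_prod]
  simp only [ph_PeB hN W n M δ e c h]
  exact Fintype.prod_equiv
    (Equiv.mulRight (fun p : Fin n × σ => sg h (Sum.inl p) * sg h (Sum.inr p.2)))
    _ _ (fun ε => rfl)

theorem t_NEB (hN : NNB) : Pool.Agent.Helper68.VN.NEB := by
  intro K _ _ σ _ _ W n M δ e c m hm h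
  by_contra hodd
  rw [Nat.not_even_iff_odd] at hodd
  rw [mem_support_iff] at hm
  apply hm
  have h1 := congrArg (coeff m) (ph_QhB hN W n M δ e c h)
  unfold ph at h1
  rw [coeff_diag] at h1
  have h2 : (∏ i : VV σ n ⊕ VV σ n,
      (if i = Sum.inr h then (-1 : K) else 1) ^ m i) = -1 := by
    rw [Finset.prod_eq_single (Sum.inr h)]
    · rw [if_pos rfl, hodd.neg_one_pow]
    · intro i _ hi
      rw [if_neg hi, one_pow]
    · intro hh
      exact absurd (Finset.mem_univ _) hh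
  rw [h2] at h1
  have h3 : (2 : K) * coeff m (QhB W n M δ e c) = 0 := by
    linear_combination -h1
  rcases mul_eq_zero.1 h3 with h4 | h4
  · exact absurd h4 two_ne_zero
  · exact h4

end

end Pool.Agent.Helper47.VN.NEB
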